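import Mathlib

/-!
# A Kirchberger-type theorem for separation of compact sets by small spheres

A sphere with centre `c` and radius `r` is described by `(c, t)` with `t = r ^ 2 - ‖c‖ ^ 2`. The
spheres of radius at most one form a convex set, and the conditions that a point is inside or outside of
the sphere are affine in `(c, t)`. If every `d + 2` points can be separated then, by compactness, they
can be separated with a uniform margin by a sphere from a fixed compact convex set, and then Helly's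
theorem in dimension `d + 1` applies.
-/

set_option autoImplicit false

namespace Pool.Agent.Results.MP_f10258_co.CompactSmallSphere

open Set Metric

/-- The sphere with centre `c` and radius `r` strictly separates `X` and `Y`: neither set meets
the sphere, one is in its interior and the other in its exterior. -/
def StrictlySeparates {d : ℕ} (c : EuclideanSpace ℝ (Fin d)) (r : ℝ)
    (X Y : Set (EuclideanSpace ℝ (Fin d))) : Prop :=
  Disjoint X (sphere c r) ∧ Disjoint Y (sphere c r) ∧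
    ((X ⊆ ball c r ∧ Y ⊆ (closedBall c r)ᶜ) ∨ (Y ⊆ ball c r ∧ X ⊆ (closedBall c r)ᶜ))

/-- The pair `(X, Y)` is small-sphere separable: some sphere of radius at most one strictly
separates `X` and `Y` and has `X` inside. -/
def SmallSphereSeparable {d : ℕ} (X Y : Set (EuclideanSpace ℝ (Fin d))) : Prop :=
  ∃ (c : EuclideanSpace ℝ (Fin d)) (r : ℝ), 0 < r ∧ r ≤ 1 ∧ StrictlySeparates c r X Y ∧ X ⊆ ball c r

variable {d : ℕ}

/-- Euclidean space. -/
abbrev Eu (d : ℕ) : Type := EuclideanSpace ℝ (Fin d)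

/-- The point of an element of the disjoint union. -/
def pt (A B : Set (Eu d)) : A ⊕ B → Eu d := Sum.elim (fun x => (x : Eu d)) (fun y => (y : Eu d))

/-- The sign: `1` for the points that should be inside, `-1` for the points that should be outside. -/
def sg (A B : Set (Eu d)) : A ⊕ B → ℝ := Sum.elim (fun _ => 1) (fun _ => -1)

lemma continuous_pt (A B : Set (Eu d)) : Continuous (pt A B) :=
  continuous_subtype_val.sumElim continuous_subtype_val

lemma continuous_sg (A B : Set (Eu d)) : Continuous (sg A B) :=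
  continuous_const.sumElim continuous_const

/-- The slack of a point in the constraint that it is inside (for a point of the first set) or
outside (for a point of the second set) of the sphere `(c, t)`. -/
noncomputable def slack (A B : Set (Eu d)) (z : A ⊕ B) (p : Eu d × ℝ) : ℝ :=
  sg A B z * (p.2 - ‖pt A B z‖ ^ 2 + 2 * inner ℝ (pt A B z) p.1)

lemma continuous_slack (A B : Set (Eu d)) (p : Eu d × ℝ) : Continuous fun z => slack A B z p := by
  unfold slack
  have h1 := continuous_pt A B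
  have h2 := continuous_sg A B
  fun_prop

/-- The set of the constraints of a point is convex. -/
lemma convex_slack (A B : Set (Eu d)) (z : A ⊕ B) (a : ℝ) : Convex ℝ {p : Eu d × ℝ | a ≤ slack A B z p} := by
  intro p hp q hq s t hs ht hst
  simp only [mem_ofPred_eq] at hp hq ⊢
  have : slack A B z (s • p + t • q) = s * slack A B z p + t * slack A B z q := by
    simp only [slack, Prod.snd_add, Prod.smul_snd, Prod.fst_add, Prod.smul_fst,
        inner_add_right, inner_smul_right, smul_eq_mul]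
    linear_combination (sg A B z * ‖pt A B z‖ ^ 2) * hst
  rw [this]
  have h1 := mul_le_mul_of_nonneg_left hp hs
  have h2 := mul_le_mul_of_nonneg_left hq ht
  have h3 : s * a + t * a = a := by rw [← add_mul, hst, one_mul]
  linarith

/-- The spheres of radius at most one form a convex set. -/
lemma convex_small : Convex ℝ {p : Eu d × ℝ | p.2 + ‖p.1‖ ^ 2 ≤ 1} := by
  intro p hp q hq s t hs ht hst
  simp only [mem_ofPred_eq, Prod.snd_add, Prod.smul_snd, Prod.fst_add, Prod.smul_fst,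
    smul_eq_mul] at hp hq ⊢
  have h1 : ‖s • p.1 + t • q.1‖ ≤ s * ‖p.1‖ + t * ‖q.1‖ := by
    refine (norm_add_le _ _).trans ?_
    rw [norm_smul, norm_smul, Real.norm_of_nonneg hs, Real.norm_of_nonneg ht]
  have h2 : ‖s • p.1 + t • q.1‖ ^ 2 ≤ (s * ‖p.1‖ + t * ‖q.1‖) ^ 2 :=
    pow_le_pow_left₀ (norm_nonneg _) h1 2
  have h3 : (s * ‖p.1‖ + t * ‖q.1‖) ^ 2 ≤ s * ‖p.1‖ ^ 2 + t * ‖q.1‖ ^ 2 := by
    have : s * ‖p.1‖ ^ 2 + t * ‖q.1‖ ^ 2 - (s * ‖p.1‖ + t * ‖q.1‖) ^ 2 =
        s * t * (‖p.1‖ - ‖q.1‖) ^ 2 := by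
      have : s = 1 - t := by linarith
      rw [this]; ring
    nlinarith [mul_nonneg (mul_nonneg hs ht) (sq_nonneg (‖p.1‖ - ‖q.1‖))]
  nlinarith

/-- A sphere far away. -/
lemma exists_far (hd : 1 ≤ d) (Y : Set (Eu d)) (hY : Bornology.IsBounded Y) :
    ∃ c : Eu d, Y ⊆ (closedBall c 1)ᶜ := by
  obtain ⟨R, hR⟩ := hY.subset_closedBall (0 : Eu d)
  let e : Eu d := EuclideanSpace.single (⟨0, hd⟩ : Fin d) (|R| + 2)
  have he : ‖e‖ = |R| + 2 := by
    have h1 : ‖e‖ = ‖|R| + 2‖ := by simp [e]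
    rw [h1]
    exact Real.norm_of_nonneg (by positivity)
  refine ⟨e, fun y hy hy' => ?_⟩
  have h1 := hR hy
  rw [mem_closedBall, dist_zero_right] at h1
  rw [mem_closedBall, dist_comm, dist_eq_norm] at hy'
  have h2 := norm_sub_norm_le e y
  rw [he] at h2
  have := le_abs_self R
  linarith

/-- The simpler form of the condition. -/
lemma separable_iff (hd : 1 ≤ d) (X Y : Set (Eu d)) (hY : Bornology.IsBounded Y) :
    SmallSphereSeparable X Y ↔
      ∃ (c : Eu d) (r : ℝ), 0 < r ∧ r ≤ 1 ∧ X ⊆ ball c r ∧ Y ⊆ (closedBall c r)ᶜ := by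
  constructor
  · rintro ⟨c, r, h0, h1, ⟨-, -, h2⟩, h3⟩
    rcases X.eq_empty_or_nonempty with rfl | ⟨x, hx⟩
    · obtain ⟨c, hc⟩ := exists_far hd Y hY
      exact ⟨c, 1, one_pos, le_rfl, empty_subset _, hc⟩
    · rcases h2 with h2 | h2
      · exact ⟨c, r, h0, h1, h2⟩
      · exact absurd (ball_subset_closedBall (h3 hx)) (h2.2 hx)
  · rintro ⟨c, r, h0, h1, h2, h3⟩
    refine ⟨c, r, h0, h1, ⟨?_, ?_, Or.inl ⟨h2, h3⟩⟩, h2⟩
    · rw [Set.disjoint_left]
      intro x hx hx'
      exact absurd (mem_ball.1 (h2 hx)) (by rw [mem_sphere.1 hx']; exact lt_irrefl _)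
    · rw [Set.disjoint_left]
      intro x hx hx'
      exact h3 hx (sphere_subset_closedBall hx')


/-- The closedness of the set of the constraints. -/
lemma continuous_slack_right (A B : Set (Eu d)) (z : A ⊕ B) : Continuous fun p => slack A B z p := by
  unfold slack
  fun_prop

/-- The separation of all the points. -/
lemma main (hd : 1 ≤ d) (A B : Set (Eu d)) (hA : IsCompact A) (hB : IsCompact B)
    (h : ∀ T : Set (Eu d), T ⊆ A ∪ B → T.encard ≤ d + 2 → SmallSphereSeparable (T ∩ A) (T ∩ B)) :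
    SmallSphereSeparable A B := by
  classical
  rw [separable_iff hd _ _ hB.isBounded]
  rcases A.eq_empty_or_nonempty with rfl | ⟨x₀, hx₀⟩
  · obtain ⟨c, hc⟩ := exists_far hd B hB.isBounded
    exact ⟨c, 1, one_pos, le_rfl, empty_subset _, hc⟩
  have := isCompact_iff_compactSpace.1 hA
  have := isCompact_iff_compactSpace.1 hB
  -- every tuple is separated
  have htuple : ∀ τ : Fin (d + 2) → A ⊕ B, ∃ p : Eu d × ℝ, p.2 + ‖p.1‖ ^ 2 ≤ 1 ∧
      ∀ i, 0 < slack A B (τ i) p := by
    intro τ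
    obtain ⟨c, r, hr0, hr1, h1, h2⟩ := (separable_iff hd _ _
      (hB.isBounded.subset inter_subset_right)).1 (h (range fun i => pt A B (τ i)) (by
        rintro _ ⟨i, rfl⟩
        simp only
        rcases τ i with x | y
        · exact Or.inl x.2
        · exact Or.inr y.2) (by
        rw [← image_univ]
        refine (encard_image_le _ _).trans ?_
        rw [encard_univ]
        simp))
    refine ⟨(c, r ^ 2 - ‖c‖ ^ 2), by simp only; nlinarith, fun i => ?_⟩
    have hmem : pt A B (τ i) ∈ range fun i => pt A B (τ i) := ⟨i, rfl⟩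
    have hdist : dist (pt A B (τ i)) c ^ 2 =
        ‖pt A B (τ i)‖ ^ 2 - 2 * inner ℝ (pt A B (τ i)) c + ‖c‖ ^ 2 := by
      rw [dist_eq_norm, norm_sub_sq_real]
    rcases hτ : τ i with x | y
    · rw [hτ] at hmem hdist
      have h3 := mem_ball.1 (h1 ⟨hmem, x.2⟩)
      have h4 : dist (pt A B (Sum.inl x)) c ^ 2 < r ^ 2 :=
        pow_lt_pow_left₀ h3 dist_nonneg two_ne_zero
      simp only [slack, sg, Sum.elim_inl]
      linarith
    · rw [hτ] at hmem hdist
      have h3 := h2 ⟨hmem, y.2⟩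
      rw [mem_compl_iff, mem_closedBall, not_le] at h3
      have h4 : r ^ 2 < dist (pt A B (Sum.inr y)) c ^ 2 :=
        pow_lt_pow_left₀ h3 hr0.le two_ne_zero
      simp only [slack, sg, Sum.elim_inr]
      linarith
  -- a uniform margin
  obtain ⟨n, hn⟩ : ∃ n : ℕ, ∀ τ : Fin (d + 2) → A ⊕ B, ∃ p : Eu d × ℝ, p.2 + ‖p.1‖ ^ 2 ≤ 1 ∧
      ‖p‖ ≤ n ∧ ∀ i, 1 / ((n : ℝ) + 1) < slack A B (τ i) p := by
    let V : ℕ → Set (Fin (d + 2) → A ⊕ B) := fun n => {τ | ∃ p : Eu d × ℝ, p.2 + ‖p.1‖ ^ 2 ≤ 1 ∧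
      ‖p‖ ≤ n ∧ ∀ i, 1 / ((n : ℝ) + 1) < slack A B (τ i) p}
    have hopen : ∀ n, IsOpen (V n) := by
      intro n
      have : V n = ⋃ p ∈ {p : Eu d × ℝ | p.2 + ‖p.1‖ ^ 2 ≤ 1 ∧ ‖p‖ ≤ n},
          ⋂ i, {τ : Fin (d + 2) → A ⊕ B | 1 / ((n : ℝ) + 1) < slack A B (τ i) p} := by
        ext τ
        simp only [V, mem_ofPred_eq, mem_iUnion, mem_iInter, exists_prop, and_assoc]
      rw [this]
      refine isOpen_biUnion fun p _ => isOpen_iInter_of_finite fun i => ?_
      exact isOpen_lt continuous_const ((continuous_slack A B p).comp (continuous_apply i))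
    have hmono : Directed (· ⊆ ·) V := by
      apply directed_of_isDirected_le
      rintro m n hmn τ ⟨p, hp, hpm, hs⟩
      refine ⟨p, hp, hpm.trans (by exact_mod_cast hmn), fun i => lt_of_le_of_lt ?_ (hs i)⟩
      have : (m : ℝ) ≤ n := by exact_mod_cast hmn
      exact one_div_le_one_div_of_le (by positivity) (by linarith)
    obtain ⟨n, hn⟩ := isCompact_univ.elim_directed_cover V hopen (by
      intro τ _
      obtain ⟨p, hp, hs⟩ := htuple τ
      obtain ⟨δ, hδ, hδs⟩ : ∃ δ > 0, ∀ i, δ < slack A B (τ i) p := by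
        obtain ⟨i₀, hi₀⟩ := Finite.exists_min fun i => slack A B (τ i) p
        refine ⟨slack A B (τ i₀) p / 2, half_pos (hs i₀), fun i => ?_⟩
        have := hi₀ i
        have := hs i₀
        linarith
      obtain ⟨n, hn⟩ := exists_nat_gt (max ‖p‖ (1 / δ))
      rw [mem_iUnion]
      refine ⟨n, p, hp, (le_max_left _ _).trans hn.le, fun i => ?_⟩
      refine lt_trans ?_ (hδs i)
      rw [div_lt_iff₀ (by positivity)]
      have : 1 / δ < n := lt_of_le_of_lt (le_max_right _ _) hn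
      rw [div_lt_iff₀ hδ] at this
      nlinarith) hmono
    exact ⟨n, fun τ => hn (mem_univ τ)⟩
  -- Helly's theorem
  let F : A ⊕ B → Set (Eu d × ℝ) := fun z => ({p : Eu d × ℝ | p.2 + ‖p.1‖ ^ 2 ≤ 1} ∩ closedBall 0 n) ∩
    {p : Eu d × ℝ | 1 / ((n : ℝ) + 1) ≤ slack A B z p}
  have hconv : ∀ z, Convex ℝ (F z) := fun z =>
    (convex_small.inter (convex_closedBall _ _)).inter (convex_slack A B z _)
  have hcomp : ∀ z, IsCompact (F z) := by
    intro z
    have h1 : IsClosed {p : Eu d × ℝ | p.2 + ‖p.1‖ ^ 2 ≤ 1} :=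
      isClosed_le (by fun_prop) continuous_const
    have h2 : IsClosed {p : Eu d × ℝ | 1 / ((n : ℝ) + 1) ≤ slack A B z p} :=
      isClosed_le continuous_const (continuous_slack_right A B z)
    exact ((isCompact_closedBall 0 (n : ℝ)).inter_left h1).inter_right h2
  obtain ⟨p, hp⟩ : (⋂ z, F z).Nonempty := by
    apply Convex.helly_theorem_compact' hconv hcomp
    intro I hI
    rcases I.eq_empty_or_nonempty with rfl | ⟨z₀, hz₀⟩
    · simp
    have hfin : Module.finrank ℝ (Eu d × ℝ) = d + 1 := by simp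
    rw [hfin] at hI
    obtain ⟨e⟩ : Nonempty (I ↪ Fin (d + 2)) := by
      apply Function.Embedding.nonempty_of_card_le
      simpa using hI
    have : Nonempty I := ⟨⟨z₀, hz₀⟩⟩
    obtain ⟨p, hp1, hp2, hp3⟩ := hn fun i => (Function.invFun e i : I)
    refine ⟨p, ?_⟩
    simp only [mem_iInter]
    intro z hz
    refine ⟨⟨hp1, by simpa using hp2⟩, ?_⟩
    have := hp3 (e ⟨z, hz⟩)
    rw [Function.leftInverse_invFun e.injective] at this
    exact this.le
  rw [mem_iInter] at hp
  have hpos : 0 < 1 / ((n : ℝ) + 1) := by positivity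
  have hdist : ∀ x : Eu d, dist x p.1 ^ 2 = ‖x‖ ^ 2 - 2 * inner ℝ x p.1 + ‖p.1‖ ^ 2 := by
    intro x
    rw [dist_eq_norm, norm_sub_sq_real]
  have hin : ∀ x ∈ A, dist x p.1 ^ 2 < p.2 + ‖p.1‖ ^ 2 := by
    intro x hx
    have h1 := (hp (Sum.inl ⟨x, hx⟩)).2
    simp only [slack, sg, pt, Sum.elim_inl, mem_ofPred_eq] at h1
    rw [hdist]
    linarith
  have hout : ∀ y ∈ B, p.2 + ‖p.1‖ ^ 2 < dist y p.1 ^ 2 := by
    intro y hy
    have h1 := (hp (Sum.inr ⟨y, hy⟩)).2
    simp only [slack, sg, pt, Sum.elim_inr, mem_ofPred_eq] at h1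
    rw [hdist]
    linarith
  have hr0 : 0 < p.2 + ‖p.1‖ ^ 2 := lt_of_le_of_lt (sq_nonneg _) (hin x₀ hx₀)
  have hr1 : p.2 + ‖p.1‖ ^ 2 ≤ 1 := (hp (Sum.inl ⟨x₀, hx₀⟩)).1.1
  refine ⟨p.1, Real.sqrt (p.2 + ‖p.1‖ ^ 2), Real.sqrt_pos.2 hr0, Real.sqrt_le_one.2 hr1, ?_, ?_⟩
  · intro x hx
    rw [mem_ball]
    exact Real.lt_sqrt_of_sq_lt (hin x hx)
  · intro y hy
    rw [mem_compl_iff, mem_closedBall, not_le]
    exact (Real.sqrt_lt' (lt_of_le_of_ne dist_nonneg (by
      intro h0
      have := hout y hy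
      rw [← h0] at this
      nlinarith))).2 (hout y hy)


/-- **Kirchberger-type separation of compact sets by small spheres.** For compact `A` and `B` in
`ℝ^d`, `d ≥ 1`, the pair `(A, B)` is small-sphere separable if and only if `(T ∩ A, T ∩ B)` is, for
every `T ⊆ A ∪ B` with at most `d + 2` points. -/
theorem result (d : ℕ) (hd : 1 ≤ d) (A B : Set (EuclideanSpace ℝ (Fin d))) (hA : IsCompact A)
    (hB : IsCompact B) :
    SmallSphereSeparable A B ↔
      ∀ T : Set (EuclideanSpace ℝ (Fin d)), T ⊆ A ∪ B → T.encard ≤ d + 2 →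
        SmallSphereSeparable (T ∩ A) (T ∩ B) := by
  refine ⟨?_, main hd A B hA hB⟩
  rintro ⟨c, r, h0, h1, ⟨h2, h3, h4⟩, h5⟩ T - -
  refine ⟨c, r, h0, h1, ⟨h2.mono_left inter_subset_right, h3.mono_left inter_subset_right, ?_⟩,
    inter_subset_right.trans h5⟩
  rcases h4 with h4 | h4
  · exact Or.inl ⟨inter_subset_right.trans h4.1, inter_subset_right.trans h4.2⟩
  · exact Or.inr ⟨inter_subset_right.trans h4.1, inter_subset_right.trans h4.2⟩

end Pool.Agent.Results.MP_f10258_co.CompactSmallSphere
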